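import Mathlib

open Filter Topology Set Metric MeasureTheory
open scoped ZeroAtInfty FourierTransform Real

namespace Pool.Agent.Results.MP_981724_an.AllDensities

universe u

/-- The numerical range of the operator `T` on the real normed space `X`. -/
def numRange {X : Type u} [NormedAddCommGroup X] [NormedSpace ℝ X] (T : X →L[ℝ] X) : Set ℝ :=
  {r | ∃ (x : X) (φ : StrongDual ℝ X), ‖x‖ = 1 ∧ ‖φ‖ = 1 ∧ φ x = 1 ∧ φ (T x) = r}

/-- `X` has a nonzero subspace `Z` with a norm-compatible complex structure `J`. -/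
def HasComplexSubspace (X : Type u) [NormedAddCommGroup X] [NormedSpace ℝ X] : Prop :=
  ∃ (Z : Submodule ℝ X) (J : Z →ₗ[ℝ] Z), Z ≠ ⊥ ∧ (∀ z, J (J z) = -z) ∧
    ∀ (ρ : ℝ) (z : Z), ‖Real.cos ρ • z + Real.sin ρ • J z‖ = ‖z‖

/-- The set `I` with the discrete topology. -/
def DI (I : Type u) : Type u := I

instance (I : Type u) : TopologicalSpace (DI I) := ⊥

instance (I : Type u) : DiscreteTopology (DI I) := ⟨rfl⟩

/-- The discrete set `I × ℕ`. -/
abbrev J (I : Type u) : Type u := DI I × ℕ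

lemma taylor (f : ℕ → ℝ → ℝ) (M : ℝ) (hd : ∀ n x, HasDerivAt (f n) (f (n + 1) x) x)
    (hM : ∀ n x, |f n x| ≤ M) (x0 : ℝ) (m : ℕ) : ∀ n t,
    |f n (x0 + t) - ∑ k ∈ Finset.range m, f (n + k) x0 / k.factorial * t ^ k| ≤ M * |t| ^ m := by
  have hM0 : 0 ≤ M := (abs_nonneg _).trans (hM 0 0)
  induction m with
  | zero => intro n t; simpa using hM n _
  | succ m ih =>
    intro n t
    have h1 : ∀ s, HasDerivAt
        (fun s => f n (x0 + s) - ∑ k ∈ Finset.range (m + 1), f (n + k) x0 / k.factorial * s ^ k)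
        (f (n + 1) (x0 + s) - ∑ k ∈ Finset.range m, f (n + 1 + k) x0 / k.factorial * s ^ k) s := by
      intro s
      refine ((hd n (x0 + s)).comp_const_add x0 s).fun_sub ?_
      have := HasDerivAt.fun_sum (u := Finset.range (m + 1)) fun k _ =>
        (hasDerivAt_pow k s).const_mul (f (n + k) x0 / k.factorial)
      refine this.congr_deriv ?_
      rw [Finset.sum_range_succ']
      simp only [Nat.cast_zero, zero_mul, mul_zero, add_zero]
      refine Finset.sum_congr rfl fun k _ => ?_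
      rw [Nat.factorial_succ, show n + (k + 1) = n + 1 + k by ring]
      push_cast
      field_simp
    have h2 := (convex_closedBall (0 : ℝ) |t|).norm_image_sub_le_of_norm_hasDerivWithin_le
      (C := M * |t| ^ m) (fun s _ => (h1 s).hasDerivWithinAt) (fun s hs => by
        refine (ih (n + 1) s).trans ?_
        have : |s| ≤ |t| := by simpa using hs
        gcongr) (x := 0) (y := t) (by simp) (by simp)
    rw [Finset.sum_range_succ' (fun k => f (n + k) x0 / k.factorial * (0 : ℝ) ^ k)] at h2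
    simpa [pow_succ, mul_assoc] using h2

lemma analytic (f : ℕ → ℝ → ℝ) (M : ℝ) (hd : ∀ n x, HasDerivAt (f n) (f (n + 1) x) x)
    (hM : ∀ n x, |f n x| ≤ M) (n : ℕ) (x0 : ℝ) : AnalyticAt ℝ (f n) x0 := by
  have hM0 : 0 ≤ M := (abs_nonneg _).trans (hM 0 0)
  have hb : ∀ k : ℕ, |f (n + k) x0 / k.factorial| ≤ M := by
    intro k
    rw [abs_div, Nat.abs_cast]
    exact (div_le_self (abs_nonneg _) (by exact_mod_cast k.factorial_pos)).trans (hM _ _)
  refine ⟨FormalMultilinearSeries.ofScalars ℝ fun k => f (n + k) x0 / k.factorial, 1, ?_, one_pos, ?_⟩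
  · refine FormalMultilinearSeries.le_radius_of_bound _ M (r := 1) fun k => ?_
    rw [FormalMultilinearSeries.ofScalars_norm]
    simpa only [NNReal.coe_one, one_pow, mul_one, Real.norm_eq_abs] using hb k
  · intro y hy
    have hy' : |y| < 1 := by simpa [enorm_eq_nnnorm, ← NNReal.coe_lt_one] using hy
    simp only [FormalMultilinearSeries.ofScalars_apply_eq, smul_eq_mul]
    rw [hasSum_iff_tendsto_nat_of_summable_norm]
    · rw [tendsto_iff_norm_sub_tendsto_zero]
      refine squeeze_zero (fun _ => norm_nonneg _) (fun m => ?_)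
        (by simpa using (tendsto_pow_atTop_nhds_zero_of_lt_one (abs_nonneg y) hy').const_mul M)
      rw [norm_sub_rev]
      simpa using taylor f M hd hM x0 m n y
    · refine Summable.of_nonneg_of_le (fun _ => norm_nonneg _) (fun k => ?_)
        ((summable_geometric_of_lt_one (abs_nonneg y) hy').mul_left M)
      rw [norm_mul, norm_pow]
      exact mul_le_mul_of_nonneg_right (hb k) (by positivity)

noncomputable def gg (n : ℕ) : ℝ → ℂ :=
  (Icc (0 : ℝ) (1 / 20)).indicator fun t => (-2 * π * Complex.I * t) ^ n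

lemma gg_int (n : ℕ) : Integrable (gg n) := by
  rw [gg, integrable_indicator_iff measurableSet_Icc]
  exact Continuous.integrableOn_Icc (by fun_prop)

lemma gg_deriv (n : ℕ) (x : ℝ) : HasDerivAt (𝓕 (gg n)) (𝓕 (gg (n + 1)) x) x := by
  have e : gg (n + 1) = fun t : ℝ => (-2 * π * Complex.I * t) • gg n t := by
    funext t
    by_cases h : t ∈ Icc (0 : ℝ) (1 / 20) <;> simp [gg, h, pow_succ, mul_comm, -one_div]
  rw [e]
  refine Real.hasDerivAt_fourier (gg_int n) ?_ x
  have : (fun t : ℝ => t • gg n t) =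
      (Icc (0 : ℝ) (1 / 20)).indicator fun t => t • (-2 * π * Complex.I * t) ^ n := by
    funext t
    by_cases h : t ∈ Icc (0 : ℝ) (1 / 20) <;> simp [gg, h, -one_div]
  rw [this, integrable_indicator_iff measurableSet_Icc]
  exact Continuous.integrableOn_Icc (by fun_prop)

lemma gg_bound (n : ℕ) (x : ℝ) : ‖𝓕 (gg n) x‖ ≤ (1 / 2) ^ n := by
  refine (VectorFourier.norm_fourierIntegral_le_integral_norm _ _ _ _ _).trans ?_
  have : (fun t => ‖gg n t‖) =
      (Icc (0 : ℝ) (1 / 20)).indicator fun t => ‖(-2 * π * Complex.I * t) ^ n‖ := by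
    funext t
    by_cases h : t ∈ Icc (0 : ℝ) (1 / 20) <;> simp [gg, h, -one_div]
  rw [this, integral_indicator measurableSet_Icc]
  refine (Real.le_norm_self _).trans ((norm_setIntegral_le_of_norm_le_const (C := (1 / 2) ^ n)
    isCompact_Icc.measure_lt_top fun t ht => ?_).trans ?_)
  · rw [norm_norm, norm_pow]
    gcongr
    have := Real.pi_lt_four
    have := Real.pi_pos
    simp only [norm_mul, norm_neg, Complex.norm_ofNat, Complex.norm_real, Complex.norm_I,
      Real.norm_eq_abs, abs_of_nonneg ht.1, abs_of_pos Real.pi_pos]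
    nlinarith [ht.1, ht.2]
  · rw [Real.volume_real_Icc_of_le (by norm_num)]
    have : (0 : ℝ) ≤ (1 / 2) ^ n := by positivity
    linarith

/-- Continuous functions on `I × ℕ × ℝ` vanishing at infinity. -/
abbrev CC (I : Type u) : Type u := C₀(J I × ℝ, ℝ)

section

variable {I : Type u}

lemma le_norm (F : CC I) (p : J I × ℝ) : |F p| ≤ ‖F‖ := F.toBCF.norm_coe_le_norm p

lemma norm_le (F : CC I) {C : ℝ} (hC : 0 ≤ C) (h : ∀ p, |F p| ≤ C) : ‖F‖ ≤ C :=
  (BoundedContinuousFunction.norm_le (f := F.toBCF) hC).2 h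

variable (I) in
/-- The functions `F` with `∂ₓ F(i,n,x) = F(i,n+1,x)`. -/
def XX : Submodule ℝ (CC I) where
  carrier := {F | ∀ i n x, HasDerivAt (fun x => F ((i, n), x)) (F ((i, n + 1), x)) x}
  add_mem' := fun ha hb i n x => (ha i n x).fun_add (hb i n x)
  zero_mem' := fun _ _ x => hasDerivAt_const x (0 : ℝ)
  smul_mem' := fun c _ h i n x => (h i n x).const_mul c

lemma XX_closed : IsClosed (XX I : Set (CC I)) := by
  refine IsSeqClosed.isClosed fun F G hF hG i n x => ?_
  have h := ZeroAtInftyContinuousMap.tendsto_iff_tendstoUniformly.1 hG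
  exact hasDerivAt_of_tendstoUniformly (f := fun k x => F k ((i, n), x))
    (f' := fun k x => F k ((i, n + 1), x)) (h.comp fun x => ((i, n + 1), x))
    (Eventually.of_forall fun k => hF k i n) (fun x => h.tendsto_at ((i, n), x)) x

instance : CompleteSpace (XX I) := XX_closed.completeSpace_coe

def sh : CocompactMap (J I × ℝ) (J I × ℝ) where
  toFun := Prod.map (Prod.map id Nat.succ) id
  continuous_toFun := (continuous_of_discreteTopology).prodMap continuous_id
  cocompact_tendsto' := by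
    have h1 : IsClosedEmbedding (Prod.map id Nat.succ : J I → J I) :=
      Topology.IsClosedEmbedding.of_continuous_injective_isClosedMap
        continuous_of_discreteTopology
        (Function.injective_id.prodMap Nat.succ_injective) (fun s _ => isClosed_discrete _)
    exact (h1.prodMap IsClosedEmbedding.id).tendsto_cocompact

noncomputable def TT : XX I →L[ℝ] XX I :=
  LinearMap.mkContinuous (E := XX I) (F := XX I) (σ := RingHom.id ℝ)
    { toFun := fun F => ⟨F.1.comp sh, fun i n x => F.2 i (n + 1) x⟩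
      map_add' := fun _ _ => rfl
      map_smul' := fun _ _ => rfl } 1 fun F => by
    rw [one_mul]
    exact norm_le _ (norm_nonneg F.1) fun p => le_norm F.1 _

lemma TT_apply (F : XX I) (i : DI I) (n : ℕ) (x : ℝ) : (TT F).1 ((i, n), x) = F.1 ((i, n + 1), x) := rfl

lemma skew (r : ℝ) (hr : r ∈ numRange (X := XX I) TT) : r = 0 := by
  obtain ⟨F, φ, hF, hφ, h1, rfl⟩ := hr
  have key : ∀ ρ : ℝ, ρ * φ (TT F) ≤ ρ ^ 2 := by
    intro ρ
    have a : ‖F + ρ • TT F‖ ≤ 1 + ρ ^ 2 := by
      refine norm_le _ (by positivity) fun p => ?_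
      obtain ⟨⟨i, n⟩, x⟩ := p
      have hb : ∀ n x, |F.1 ((i, n), x)| ≤ 1 := fun n x => (le_norm F.1 _).trans hF.le
      have b := taylor (fun n x => F.1 ((i, n), x)) 1 (F.2 i) hb x 2 n ρ
      have c := hb n (x + ρ)
      change |F.1 ((i, n), x) + ρ * F.1 ((i, n + 1), x)| ≤ _
      simp only [Finset.sum_range_succ, Finset.range_zero, Finset.sum_empty, sq_abs] at b
      norm_num at b
      rw [abs_le] at b c ⊢
      constructor <;> linarith [b.1, b.2, c.1, c.2]
    have b := (le_abs_self _).trans (φ.le_of_opNorm_le hφ.le (F + ρ • TT F))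
    rw [map_add, map_smul, h1, smul_eq_mul] at b
    linarith
  have := key (φ (TT F) / 2)
  nlinarith

lemma slice_emb (j : J I) : IsClosedEmbedding (fun x : ℝ => (j, x)) :=
  Topology.IsClosedEmbedding.of_continuous_injective_isClosedMap (by fun_prop)
    (fun a b h => (Prod.mk.inj h).2) fun s hs => by
      have : (fun x : ℝ => (j, x)) '' s = {j} ×ˢ s := by ext ⟨a, b⟩; simp [eq_comm, and_comm]
      rw [this]
      exact isClosed_singleton.prod hs

lemma slice (F : CC I) (j : J I) (c : ℝ) (h : ∀ x, F (j, x) = c) : c = 0 := by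
  have h1 := (zero_at_infty F).comp (slice_emb j).tendsto_cocompact
  have e : (F ∘ fun x : ℝ => (j, x)) = fun _ => c := funext h
  rw [e] at h1
  exact tendsto_nhds_unique tendsto_const_nhds h1

lemma TT_inj : Function.Injective (TT (I := I)) := by
  refine (injective_iff_map_eq_zero _).2 fun F hF => ?_
  have h1 : ∀ i n x, F.1 ((i, n + 1), x) = 0 := fun i n x => by
    rw [← TT_apply, hF]; rfl
  have h2 : ∀ i n x, F.1 ((i, n), x) = F.1 ((i, n), 0) := fun i n x =>
    is_const_of_deriv_eq_zero (f := fun x => F.1 ((i, n), x))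
      (fun x => (F.2 i n x).differentiableAt) (fun x => (F.2 i n x).deriv.trans (h1 i n x)) x 0
  ext ⟨⟨i, n⟩, x⟩
  rw [h2]
  exact slice F.1 (i, n) _ (h2 i n)

open Classical in
noncomputable def ex (i : DI I) : CC I where
  toFun := fun p => if p.1.1 = i then (𝓕 (gg p.1.2) p.2).re else 0
  continuous_toFun := by
    refine continuous_prod_of_discrete_left.2 fun j => ?_
    by_cases h : j.1 = i
    · simp only [h, if_true]
      exact Complex.continuous_re.comp
        (continuous_iff_continuousAt.2 fun x => (gg_deriv j.2 x).continuousAt)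
    · simp only [h, if_false]
      exact continuous_const
  zero_at_infty' := by
    rw [Metric.tendsto_nhds]
    intro ε hε
    obtain ⟨N, hN⟩ := exists_pow_lt_of_lt_one hε (show (1 / 2 : ℝ) < 1 by norm_num)
    have h := fun n => Filter.mem_cocompact.1
      (Metric.tendsto_nhds.1 (Real.zero_at_infty_fourier (gg n)) ε hε)
    choose K hK hK' using h
    refine Filter.mem_cocompact.2 ⟨⋃ n ∈ Finset.range N, {(i, n)} ×ˢ K n,
      (Finset.range N).isCompact_biUnion fun n _ => isCompact_singleton.prod (hK n), ?_⟩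
    rintro ⟨⟨i', n⟩, x⟩ hp
    simp only [mem_ofPred_eq, dist_zero_right]
    by_cases hi : i' = i
    · subst hi
      simp only [if_true]
      refine (Complex.abs_re_le_norm _).trans_lt ?_
      by_cases hn : n < N
      · have : x ∉ K n := fun hx => hp (mem_biUnion (Finset.mem_range.2 hn) ⟨rfl, hx⟩)
        simpa using hK' n this
      · exact ((gg_bound n x).trans (pow_le_pow_of_le_one (by norm_num) (by norm_num)
          (not_lt.1 hn))).trans_lt hN
    · simpa [hi] using hε

lemma ex_apply (i : DI I) (n : ℕ) (x : ℝ) : ex i ((i, n), x) = (𝓕 (gg n) x).re := if_pos rfl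

lemma ex_apply' {i i' : DI I} (h : i' ≠ i) (n : ℕ) (x : ℝ) : ex i ((i', n), x) = 0 := if_neg h

lemma ex_mem (i : DI I) : ex i ∈ XX I := fun i' n x => by
  by_cases h : i' = i
  · subst h
    simp only [ex_apply]
    exact Complex.reCLM.hasFDerivAt.comp_hasDerivAt x (gg_deriv n x)
  · simp only [ex_apply' h]
    exact hasDerivAt_const x (0 : ℝ)

lemma ex_val (i : DI I) : ex i ((i, 0), 0) = 1 / 20 := by
  rw [ex_apply, Real.fourier_real_eq]
  simp [gg, integral_indicator]

lemma attain (F : CC I) (h : 0 < ‖F‖) : ∃ p, |F p| = ‖F‖ := by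
  obtain ⟨q, hq⟩ : ∃ q, 0 < |F q| := by
    by_contra hc
    push Not at hc
    linarith [norm_le F le_rfl hc]
  obtain ⟨p, hp⟩ := Continuous.exists_forall_ge' (f := fun p => |F p|) (by fun_prop) q (by
    have := (zero_at_infty F).abs
    rw [abs_zero] at this
    exact (this.eventually (gt_mem_nhds hq)).mono fun x hx => hx.le)
  exact ⟨p, le_antisymm (le_norm F p) (norm_le F (abs_nonneg _) hp)⟩

lemma noplane (L : EuclideanSpace ℝ (Fin 2) →ₗᵢ[ℝ] XX I) : False := by
  set F := L (EuclideanSpace.single 0 1)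
  set G := L (EuclideanSpace.single 1 1)
  have hn : ∀ a b : ℝ, ‖a • F.1 + b • G.1‖ ^ 2 = a ^ 2 + b ^ 2 := by
    intro a b
    change ‖a • F + b • G‖ ^ 2 = _
    rw [← map_smul, ← map_smul, ← map_add, L.norm_map, EuclideanSpace.real_norm_sq_eq]
    simp
  have h1 : ∀ p, F.1 p ^ 2 + G.1 p ^ 2 ≤ 1 := by
    intro p
    have a := le_norm (F.1 p • F.1 + G.1 p • G.1) p
    have b := hn (F.1 p) (G.1 p)
    change |F.1 p * F.1 p + G.1 p * G.1 p| ≤ _ at a
    rw [abs_of_nonneg (by nlinarith)] at a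
    by_contra hc
    push Not at hc
    have : (F.1 p * F.1 p + G.1 p * G.1 p) ^ 2 ≤ F.1 p ^ 2 + G.1 p ^ 2 := by
      rw [← b]; gcongr; nlinarith
    nlinarith
  have h2 : ∀ k : ℕ, ∃ p, F.1 p ^ 2 + G.1 p ^ 2 = 1 ∧ G.1 p = k * F.1 p := by
    intro k
    have b := hn 1 k
    obtain ⟨p, hp⟩ := attain ((1 : ℝ) • F.1 + (k : ℝ) • G.1) (by
      by_contra hc
      have : ‖(1 : ℝ) • F.1 + (k : ℝ) • G.1‖ = 0 := le_antisymm (not_lt.1 hc) (norm_nonneg _)
      rw [this] at b
      nlinarith)
    rw [← hp, sq_abs] at b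
    change (1 * F.1 p + k * G.1 p) ^ 2 = _ at b
    have c := h1 p
    have d : (k * F.1 p - G.1 p) ^ 2 ≤ 0 := by nlinarith
    have e : k * F.1 p - G.1 p = 0 := by simpa using d
    refine ⟨p, ?_, by linarith⟩
    have : (1 + (k : ℝ) ^ 2) * (F.1 p ^ 2 + G.1 p ^ 2 - 1) = 0 := by
      linear_combination b + (k * F.1 p - G.1 p) * e
    rcases mul_eq_zero.1 this with h | h
    · nlinarith
    · linarith
  choose p hp1 hp2 using h2
  have hinj : Function.Injective p := by
    intro k l h
    have a := hp1 k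
    have b := hp2 k
    have c := hp2 l
    rw [← h, b] at c
    by_contra hne
    have : F.1 (p k) = 0 := by
      rcases mul_eq_mul_right_iff.1 c with h | h
      · exact absurd (by exact_mod_cast h) hne
      · exact h
    rw [b, this] at a
    simp at a
  let H : CC I := F.1 * F.1 + G.1 * G.1
  have hH : ∀ q, H q = F.1 q ^ 2 + G.1 q ^ 2 := fun q => by simp [H, sq]
  obtain ⟨K, hK, hK'⟩ := Filter.mem_cocompact.1
    ((zero_at_infty H).eventually (gt_mem_nhds (show (0 : ℝ) < 1 by norm_num)))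
  have hZ : {q | H q = 1}.Infinite :=
    infinite_of_injective_forall_mem hinj fun k => (hH _).trans (hp1 k)
  obtain ⟨⟨⟨i, n⟩, x0⟩, -, hacc⟩ := hZ.exists_accPt_of_subset_isCompact hK fun q hq => by
    by_contra hc
    exact absurd (hK' hc) (by simp [show H q = 1 from hq])
  have hfr : ∃ᶠ x in 𝓝[≠] x0, H ((i, n), x) = 1 := by
    rw [accPt_iff_frequently] at hacc
    rw [frequently_nhdsWithin_iff]
    rw [nhds_prod_eq, nhds_discrete (J I), pure_prod, frequently_map] at hacc
    exact hacc.mono fun x hx => ⟨hx.2, fun h => hx.1 (by rw [show x = x0 from h])⟩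
  have an : AnalyticOnNhd ℝ (fun x => H ((i, n), x)) univ := fun x _ => by
    simp only [hH]
    exact ((analytic (fun n x => F.1 ((i, n), x)) _ (F.2 i) (fun n x => le_norm F.1 _) n x).fun_pow 2).fun_add
      ((analytic (fun n x => G.1 ((i, n), x)) _ (G.2 i) (fun n x => le_norm G.1 _) n x).fun_pow 2)
  have := an.eqOn_of_preconnected_of_frequently_eq analyticOnNhd_const isPreconnected_univ
    (mem_univ x0) hfr
  exact one_ne_zero (slice H (i, n) 1 fun x => this (mem_univ x))


/-- Restriction to the finitely many slices in `S` and to `[-m, m]`. -/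
noncomputable def res (S : Finset (J I)) (m : ℕ) (F : XX I) :
    S → C(Set.Icc (-(m : ℝ)) m, ℝ) := fun s =>
  ⟨fun x => F.1 (s.1, x.1), by fun_prop⟩

lemma res_dist (S : Finset (J I)) (m : ℕ) (F G : XX I) (ε : ℝ)
    (w : S → C(Set.Icc (-(m : ℝ)) m, ℝ)) (h1 : dist (res S m F) w ≤ ε)
    (h2 : dist (res S m G) w ≤ ε) (j : J I) (hj : j ∈ S) (x : ℝ) (hx : x ∈ Set.Icc (-(m : ℝ)) m) :
    |F.1 (j, x) - G.1 (j, x)| ≤ 2 * ε := by
  have a := (dist_le_pi_dist (res S m F) w ⟨j, hj⟩).trans h1
  have b := (dist_le_pi_dist (res S m G) w ⟨j, hj⟩).trans h2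
  have a' := (ContinuousMap.dist_apply_le_dist (f := res S m F ⟨j, hj⟩) (g := w ⟨j, hj⟩)
    ⟨x, hx⟩).trans a
  have b' := (ContinuousMap.dist_apply_le_dist (f := res S m G ⟨j, hj⟩) (g := w ⟨j, hj⟩)
    ⟨x, hx⟩).trans b
  rw [Real.dist_eq] at a' b'
  change |F.1 (j, x) - _| ≤ ε at a'
  change |G.1 (j, x) - _| ≤ ε at b'
  rw [abs_le] at a' b' ⊢
  constructor <;> linarith [a'.1, a'.2, b'.1, b'.2]

/-- A good approximation with parameters `S`, `m`, `k`, `q`. -/
def Good (S : Finset (J I)) (m k q : ℕ) (F : XX I) : Prop :=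
  (∀ j x, ¬ (j ∈ S ∧ x ∈ Set.Icc (-(m : ℝ)) m) → |F.1 (j, x)| ≤ 1 / ((k : ℝ) + 1)) ∧
    dist (res S m F) (TopologicalSpace.denseSeq (S → C(Set.Icc (-(m : ℝ)) m, ℝ)) q)
      ≤ 1 / ((k : ℝ) + 1)

open Classical in
/-- A choice of good approximations. -/
noncomputable def pick (a : Finset (J I) × ℕ × ℕ × ℕ) : XX I :=
  if h : ∃ F, Good a.1 a.2.1 a.2.2.1 a.2.2.2 F then h.choose else 0

lemma pick_good (S : Finset (J I)) (m k q : ℕ) (F : XX I) (h : Good S m k q F) :
    Good S m k q (pick (S, m, k, q)) := by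
  have h' : ∃ F, Good S m k q F := ⟨F, h⟩
  have : pick (S, m, k, q) = h'.choose := dif_pos h'
  rw [this]
  exact h'.choose_spec

lemma dense_range : DenseRange (pick (I := I)) := by
  refine Metric.denseRange_iff.2 fun F r hr => ?_
  obtain ⟨k, hk⟩ := exists_nat_one_div_lt (show 0 < r / 2 by positivity)
  have hk0 : 0 < 1 / ((k : ℝ) + 1) := by positivity
  obtain ⟨K, hK, hK'⟩ := Filter.mem_cocompact.1
    (Metric.tendsto_nhds.1 (zero_at_infty F.1) _ hk0)
  have hS := (hK.image continuous_fst).finite_of_discrete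
  obtain ⟨R, hR⟩ := (hK.image continuous_snd).isBounded.subset_closedBall 0
  obtain ⟨m, hm⟩ := exists_nat_ge R
  obtain ⟨q, hq⟩ := (Metric.denseRange_iff.1
    (TopologicalSpace.denseRange_denseSeq (hS.toFinset → C(Set.Icc (-(m : ℝ)) m, ℝ))))
    (res hS.toFinset m F) _ hk0
  have good : Good hS.toFinset m k q F := by
    refine ⟨fun j x hjx => ?_, hq.le⟩
    have hp : (j, x) ∉ K := by
      intro hp
      refine hjx ⟨hS.mem_toFinset.2 ⟨_, hp, rfl⟩, ?_⟩
      have := hR ⟨_, hp, rfl⟩
      rw [mem_closedBall, dist_zero_right, Real.norm_eq_abs, abs_le] at this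
      exact ⟨by linarith [this.1], by linarith [this.2]⟩
    have := hK' hp
    simp only [mem_ofPred_eq, dist_zero_right] at this
    exact this.le
  refine ⟨(hS.toFinset, m, k, q), ?_⟩
  have good' := pick_good _ _ _ _ _ good
  set G := pick (hS.toFinset, m, k, q)
  have e : dist F G = ‖F.1 - G.1‖ := dist_eq_norm (F.1) (G.1)
  refine lt_of_le_of_lt (e.le.trans
    (norm_le (F.1 - G.1) (C := 2 * (1 / ((k : ℝ) + 1))) (by positivity) ?_)) (by linarith)
  rintro ⟨j, x⟩
  change |F.1 (j, x) - G.1 (j, x)| ≤ _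
  by_cases h : j ∈ hS.toFinset ∧ x ∈ Set.Icc (-(m : ℝ)) m
  · exact res_dist _ _ _ _ _ _ good.2 good'.2 j h.1 x h.2
  · have a := good.1 j x h
    have b := good'.1 j x h
    rw [abs_le] at a b ⊢
    constructor <;> linarith [a.1, a.2, b.1, b.2]

lemma lower (D : Set (XX I)) (hD : Dense D) : ∃ f : DI I → D, Function.Injective f := by
  have h : ∀ i : DI I, ∃ d : D, ‖ex i - d.1.1‖ < 1 / 40 := fun i => by
    obtain ⟨d, hd, h⟩ := Metric.dense_iff.1 hD (⟨ex i, ex_mem i⟩ : XX I) (1 / 40) (by norm_num)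
    have e : dist (ex i) d.1 = ‖ex i - d.1‖ := dist_eq_norm _ _
    have hd' : dist (ex i) d.1 < 1 / 40 := by rw [dist_comm]; exact hd
    exact ⟨⟨d, h⟩, e ▸ hd'⟩
  choose f hf using h
  refine ⟨f, fun i i' e => ?_⟩
  by_contra hne
  have a := (le_norm (ex i - (f i).1.1) ((i, 0), 0)).trans_lt (hf i)
  have b := (le_norm (ex i' - (f i').1.1) ((i, 0), 0)).trans_lt (hf i')
  rw [← e] at b
  change |ex i ((i, 0), 0) - (f i).1.1 ((i, 0), 0)| < _ at a
  change |ex i' ((i, 0), 0) - (f i).1.1 ((i, 0), 0)| < _ at b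
  rw [ex_val] at a
  rw [ex_apply' (i := i') (i' := i) hne] at b
  rw [abs_lt] at a b
  linarith [a.1, a.2, b.1, b.2]

end

lemma numRange_eq {X : Type u} [NormedAddCommGroup X] [NormedSpace ℝ X] (T : X →L[ℝ] X)
    (h : ∀ r ∈ numRange T, r = 0) (x : X) (hx : x ≠ 0) : numRange T = {0} := by
  ext r
  refine ⟨fun hr => h r hr, ?_⟩
  rintro rfl
  have h1 : ‖‖x‖⁻¹ • x‖ = 1 := by
    rw [norm_smul, norm_inv, norm_norm, inv_mul_cancel₀ (norm_ne_zero_iff.2 hx)]
  obtain ⟨φ, hφ, hφ'⟩ := exists_dual_vector ℝ (‖x‖⁻¹ • x) (by rw [h1]; norm_num)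
  have h2 : φ (‖x‖⁻¹ • x) = 1 := by rw [hφ', h1]; rfl
  have h3 : φ (T (‖x‖⁻¹ • x)) ∈ numRange T := ⟨_, φ, h1, hφ, h2, rfl⟩
  rwa [h _ h3] at h3

lemma no_complex {X : Type u} [NormedAddCommGroup X] [NormedSpace ℝ X]
    (h : IsEmpty (EuclideanSpace ℝ (Fin 2) →ₗᵢ[ℝ] X)) : ¬ HasComplexSubspace X := by
  rintro ⟨Z, J, hZ, -, hn⟩
  obtain ⟨z, hz, hz0⟩ := Submodule.exists_mem_ne_zero_of_ne_bot hZ
  obtain ⟨w, hw⟩ : ∃ w : Z, ‖w‖ = 1 :=
    ⟨‖z‖⁻¹ • ⟨z, hz⟩, by
      rw [norm_smul, norm_inv, norm_norm]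
      exact inv_mul_cancel₀ (norm_ne_zero_iff.2 hz0)⟩
  refine h.false ⟨⟨⟨fun v => ((v 0 • w + v 1 • J w : Z) : X), ?_⟩, ?_⟩, ?_⟩
  · intro u v
    simp only [PiLp.add_apply, Submodule.coe_add, Submodule.coe_smul]
    module
  · intro c v
    simp only [PiLp.smul_apply, Submodule.coe_add, Submodule.coe_smul, smul_eq_mul,
      RingHom.id_apply]
    module
  · intro v
    change ‖v 0 • w + v 1 • J w‖ = ‖v‖
    let c : ℂ := ⟨v 0, v 1⟩
    have e0 : v 0 = ‖c‖ * Real.cos (Complex.arg c) := (Complex.norm_mul_cos_arg c).symm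
    have e1 : v 1 = ‖c‖ * Real.sin (Complex.arg c) := (Complex.norm_mul_sin_arg c).symm
    have e2 : ‖c‖ = ‖v‖ := by
      rw [EuclideanSpace.norm_eq, Complex.norm_def, Complex.normSq_mk]
      simp [sq]
    have e3 : v 0 • w + v 1 • J w =
        ‖c‖ • (Real.cos (Complex.arg c) • w + Real.sin (Complex.arg c) • J w) := by
      rw [smul_add, smul_smul, smul_smul, ← e0, ← e1]
    rw [e3, norm_smul, norm_norm, hn, hw, mul_one, e2]

/-- For every infinite set `I` there are a real Banach space `X` and an injective operator `T`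
on `X` which is skew-hermitian, such that no two-dimensional subspace of `X` is isometric to the
Euclidean plane, no nonzero subspace of `X` has a norm-compatible complex structure, and the
density character of `X` is the cardinality of `I`: some dense subset of `X` has the cardinality
of `I`, and `I` injects into every dense subset of `X`. -/
theorem result (I : Type u) [Infinite I] :
    ∃ (X : Type u) (_ : NormedAddCommGroup X) (_ : NormedSpace ℝ X) (_ : CompleteSpace X)
      (T : X →L[ℝ] X), Function.Injective T ∧ numRange T = {0} ∧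
        IsEmpty (EuclideanSpace ℝ (Fin 2) →ₗᵢ[ℝ] X) ∧ ¬ HasComplexSubspace X ∧
        (∃ D : Set X, Dense D ∧ Nonempty (D ≃ I)) ∧
        (∀ D : Set X, Dense D → ∃ f : I → D, Function.Injective f) := by
  refine ⟨XX I, inferInstance, inferInstance, inferInstance, TT, TT_inj, ?_, ⟨noplane⟩,
    no_complex (X := XX I) ⟨noplane⟩, ?_, lower⟩
  · obtain ⟨i⟩ : Nonempty (DI I) := inferInstanceAs (Nonempty I)
    refine numRange_eq (X := XX I) TT (fun r hr => skew r hr) ⟨ex i, ex_mem i⟩ fun h => ?_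
    have h1 := congrArg (fun F : XX I => F.1 ((i, 0), 0)) h
    change ex i ((i, 0), 0) = 0 at h1
    rw [ex_val] at h1
    norm_num at h1
  · refine ⟨Set.range (pick (I := I)), dense_range, ?_⟩
    rw [← Cardinal.eq]
    obtain ⟨f, hf⟩ := lower (I := I) _ dense_range
    refine le_antisymm ?_ (Cardinal.mk_le_of_injective hf)
    have hi : Cardinal.aleph0 ≤ Cardinal.mk I := Cardinal.infinite_iff.1 inferInstance
    have hJ : Cardinal.mk (J I) = Cardinal.mk I := by
      change Cardinal.mk (I × ℕ) = _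
      simp
    have : Infinite (J I) := Cardinal.infinite_iff.2 (hJ ▸ hi)
    refine Cardinal.mk_range_le.trans ?_
    have e : Cardinal.mk (Finset (J I) × ℕ × ℕ × ℕ) = Cardinal.mk I := by
      simp only [Cardinal.mk_prod, Cardinal.lift_id, Cardinal.mk_finset_of_infinite, hJ,
        Cardinal.mk_nat, Cardinal.lift_aleph0, Cardinal.aleph0_mul_aleph0]
      simp
    exact e.le

end Pool.Agent.Results.MP_981724_an.AllDensities
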